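import Mathlib

set_option autoImplicit false

namespace Pool.Agent.Results.MP_6f7bab_an.SpanFails

open Set Filter Topology
open scoped Classical

/-- `D` satisfies the axioms of a metric on the set `X`. -/
def IsMetricOn {α : Type} (D : α → α → ℝ) (X : Set α) : Prop :=
  (∀ x ∈ X, ∀ y ∈ X, 0 ≤ D x y ∧ (D x y = 0 ↔ x = y) ∧ D x y = D y x) ∧
    ∀ x ∈ X, ∀ y ∈ X, ∀ z ∈ X, D x z ≤ D x y + D y z

/-- the distance `D(x,y) = d(x_Δ, y_Δ) k^(-Δ)`, `Δ` the first index where `x`, `y` differ. -/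
noncomputable def DD {A : Type} (d : A → A → ℝ) (k : ℕ) (x y : ℕ → A) : ℝ :=
  d (x (PiNat.firstDiff x y)) (y (PiNat.firstDiff x y)) / (k : ℝ) ^ PiNat.firstDiff x y

/-- the least size of a `(T, ε)`-spanning subset of `X`. -/
noncomputable def span {A : Type} (X : Set (ℕ → A)) (d : A → A → ℝ) (k : ℕ) (ε : ℝ) (T : ℕ) : ℕ :=
  sInf {n | ∃ S : Finset (ℕ → A), (S : Set (ℕ → A)) ⊆ X ∧ S.card = n ∧
    ∀ x ∈ X, ∃ y ∈ S, ∀ t < T, DD d k (fun i => x (i + t)) (fun i => y (i + t)) ≤ ε}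

def dn (a b : Fin 4) : ℕ :=
  if a = b then 0 else if (a = 3 ∧ b ≠ 0) ∨ (b = 3 ∧ a ≠ 0) then 1 else 2

noncomputable def d0 (a b : Fin 4) : ℝ := dn a b

def X0 : Set (ℕ → Fin 4) :=
  {x | ∀ i j, i < j → x i = 0 → x j = 0 → (∃ m, j - i = 4 ^ m) ∧ ∀ t, i < t → t < j → x t ≠ 3}

lemma dn_le : ∀ a b, dn a b ≤ 2 := by decide
lemma dn_zero : ∀ a b, dn a b = 0 ↔ a = b := by decide
lemma dn_comm : ∀ a b, dn a b = dn b a := by decide
lemma dn_tri : ∀ a b c, dn a c ≤ dn a b + dn b c := by decide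
lemma dn_hash : ∀ b, dn 0 b ≤ 1 → b = 0 := by decide
lemma dn_ab : ∀ a b, a ≠ 3 → b ≠ 3 → dn a b ≤ 1 → a = b := by decide
lemma dn_c : ∀ a, a ≠ 0 → dn a 3 ≤ 1 := by decide

lemma close (x y : ℕ → Fin 4) : DD d0 2 x y ≤ 1 ↔ dn (x 0) (y 0) ≤ 1 := by
  unfold DD d0
  rcases Nat.eq_zero_or_pos (PiNat.firstDiff x y) with h | h
  · rw [h]; simp
  · have h1 := PiNat.apply_eq_of_lt_firstDiff h
    rw [(dn_zero _ _).2 h1]
    simp only [zero_le, iff_true]
    rw [div_le_one (by positivity)]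
    have h2 : ((dn (x (PiNat.firstDiff x y)) (y (PiNat.firstDiff x y)) : ℕ) : ℝ) ≤ 2 := by
      exact_mod_cast dn_le _ _
    refine h2.trans ?_
    exact_mod_cast Nat.le_self_pow h.ne' 2

lemma DD_ge {x y : ℕ → Fin 4} (n : ℕ) (h : PiNat.firstDiff x y ≤ n) (hne : x ≠ y) :
    (dn (x n) (y n) : ℝ) / 2 ^ n ≤ DD d0 2 x y ∧
      (PiNat.firstDiff x y < n → (2 : ℝ) / 2 ^ n ≤ DD d0 2 x y) := by
  have h3 : PiNat.firstDiff x y < n → (2 : ℝ) / 2 ^ n ≤ DD d0 2 x y := by
    intro h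
    unfold DD d0
    have h1 : (1 : ℝ) ≤ dn (x (PiNat.firstDiff x y)) (y (PiNat.firstDiff x y)) := by
      have := (dn_zero _ _).not.2 (PiNat.apply_firstDiff_ne hne)
      exact_mod_cast Nat.pos_of_ne_zero this
    rw [div_le_div_iff₀ (by positivity) (by positivity)]
    have h2 : (2 : ℝ) ^ (PiNat.firstDiff x y + 1) ≤ 2 ^ n := pow_le_pow_right₀ (by norm_num) h
    rw [pow_succ] at h2
    push_cast
    have : (0 : ℝ) < 2 ^ n := by positivity
    nlinarith
  refine ⟨?_, h3⟩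
  rcases h.lt_or_eq with h | h
  · refine le_trans ?_ (h3 h)
    gcongr
    exact_mod_cast dn_le _ _
  · unfold DD d0
    rw [h]; simp

lemma DD_nonneg (x y : ℕ → Fin 4) : 0 ≤ DD d0 2 x y := by unfold DD d0; positivity

lemma DD_ge' (x y : ℕ → Fin 4) (n : ℕ) (h : ∀ i < n, x i = y i) :
    (dn (x n) (y n) : ℝ) / 2 ^ n ≤ DD d0 2 x y := by
  by_cases h1 : x n = y n
  · rw [(dn_zero _ _).2 h1]; simpa using DD_nonneg x y
  · have hne : x ≠ y := fun e => h1 (by rw [e])
    refine (DD_ge n ?_ hne).1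
    by_contra hc
    exact h1 (PiNat.apply_eq_of_lt_firstDiff (not_le.1 hc))

lemma DD_tri (x y z : ℕ → Fin 4) : DD d0 2 x z ≤ DD d0 2 x y + DD d0 2 y z := by
  set n := PiNat.firstDiff x z with hn
  have e : DD d0 2 x z = (dn (x n) (z n) : ℝ) / 2 ^ n := by unfold DD d0; simp [hn]
  have hb : (dn (x n) (z n) : ℝ) / 2 ^ n ≤ 2 / 2 ^ n := by
    gcongr; exact_mod_cast dn_le _ _
  have key : ∀ u v : ℕ → Fin 4, (∃ i < n, u i ≠ v i) → (2 : ℝ) / 2 ^ n ≤ DD d0 2 u v := by
    rintro u v ⟨i, hi, h⟩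
    have hne : u ≠ v := fun e => h (by rw [e])
    have : PiNat.firstDiff u v ≤ i := by
      by_contra hc
      exact h (PiNat.apply_eq_of_lt_firstDiff (not_le.1 hc))
    exact (DD_ge n (by omega) hne).2 (by omega)
  have p1 := DD_nonneg x y
  have p2 := DD_nonneg y z
  by_cases h1 : ∃ i < n, x i ≠ y i
  · have := key _ _ h1; linarith
  by_cases h2 : ∃ i < n, y i ≠ z i
  · have := key _ _ h2; linarith
  push Not at h1 h2
  have a1 := DD_ge' x y n h1
  have a2 := DD_ge' y z n h2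
  have a3 : (dn (x n) (z n) : ℝ) ≤ dn (x n) (y n) + dn (y n) (z n) := by
    exact_mod_cast dn_tri _ _ _
  have a4 : (dn (x n) (z n) : ℝ) / 2 ^ n ≤ (dn (x n) (y n) + dn (y n) (z n)) / 2 ^ n := by gcongr
  rw [add_div] at a4
  linarith

lemma three {x : ℕ → Fin 4} (hx : x ∈ X0) {i t j : ℕ} (h1 : i < t) (h2 : t < j) (hi : x i = 0)
    (ht : x t = 0) (hj : x j = 0) : False := by
  obtain ⟨a, ha⟩ := (hx i t h1 hi ht).1
  obtain ⟨b, hb⟩ := (hx t j h2 ht hj).1
  obtain ⟨c, hc⟩ := (hx i j (by omega) hi hj).1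
  have m : ∀ a, 4 ^ a % 3 = 1 := fun a => by rw [Nat.pow_mod]; simp
  have := m a; have := m b; have := m c
  omega

noncomputable def ctr (R i j : ℕ) (w : Fin R → Bool) (t : ℕ) : Fin 4 :=
  if t = i ∨ t = j then 0 else if h : i < t ∧ t < j ∧ t - i < R then
    (if w ⟨t - i, h.2.2⟩ then 1 else 2) else 3

lemma ctr_zero {R i j : ℕ} {w : Fin R → Bool} {t : ℕ} (h : ctr R i j w t = 0) : t = i ∨ t = j := by
  unfold ctr at h
  split_ifs at h with h1 <;> first | exact h1 | simp at h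

lemma ctr_mem {R i j : ℕ} (w : Fin R → Bool) (h : i = j ∨ (i < j ∧ j - i ≤ R ∧ ∃ m, j - i = 4 ^ m)) :
    ctr R i j w ∈ X0 := by
  intro a b hab ha hb
  have h1 := ctr_zero ha
  have h2 := ctr_zero hb
  rcases h with h | ⟨h3, h4, h5⟩
  · omega
  · have e1 : a = i := by omega
    have e2 : b = j := by omega
    subst e1 e2
    refine ⟨h5, fun t h6 h7 => ?_⟩
    have h8 : ¬ (t = a ∨ t = b) := by omega
    have h9 : a < t ∧ t < b ∧ t - a < R := by omega
    simp only [ctr, h8, h9, if_false, and_self, dif_pos]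
    split_ifs <;> decide

lemma upper (T R : ℕ) (hR : ∀ m, 4 ^ m < T → 4 ^ m ≤ R) : ∃ S : Finset (ℕ → Fin 4),
    (S : Set (ℕ → Fin 4)) ⊆ X0 ∧ S.card ≤ (T + 1) ^ 2 * 2 ^ R ∧
    ∀ x ∈ X0, ∃ y ∈ S, ∀ t < T, DD d0 2 (fun i => x (i + t)) (fun i => y (i + t)) ≤ 1 := by
  refine ⟨((Finset.range (T + 1) ×ˢ Finset.range (T + 1) ×ˢ (Finset.univ : Finset (Fin R → Bool))).image
    fun p => ctr R p.1 p.2.1 p.2.2).filter (· ∈ X0), fun y hy => (Finset.mem_filter.1 hy).2, ?_,
    fun x hx => ?_⟩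
  · refine (Finset.card_filter_le _ _).trans (Finset.card_image_le.trans ?_)
    simp [pow_two, mul_assoc]
  · obtain ⟨i, j, hi, hj, h1, h2⟩ : ∃ i j, i ≤ T ∧ j ≤ T ∧
        (i = j ∨ (i < j ∧ j - i ≤ R ∧ (∃ m, j - i = 4 ^ m) ∧ x i = 0 ∧ x j = 0)) ∧
        ∀ t < T, x t = 0 ↔ t = i ∨ t = j := by
      by_cases c1 : ∃ i j, i < j ∧ j < T ∧ x i = 0 ∧ x j = 0
      · obtain ⟨i, j, hij, hj, xi, xj⟩ := c1
        obtain ⟨m, hm⟩ := (hx i j hij xi xj).1
        refine ⟨i, j, by omega, by omega, Or.inr ⟨hij, hm ▸ hR m (by omega), ⟨m, hm⟩, xi, xj⟩,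
          fun t _ => ⟨fun h => ?_, by rintro (rfl | rfl) <;> assumption⟩⟩
        by_contra hc
        rcases lt_trichotomy t i with h3 | h3 | h3
        · exact three hx h3 hij h xi xj
        · omega
        · rcases lt_trichotomy t j with h4 | h4 | h4
          · exact three hx h3 h4 xi h xj
          · omega
          · exact three hx hij h4 xi xj h
      · push Not at c1
        by_cases c2 : ∃ i < T, x i = 0
        · obtain ⟨i, hi, xi⟩ := c2
          refine ⟨i, i, by omega, by omega, Or.inl rfl, fun t ht => ⟨fun h => ?_,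
            by rintro (rfl | rfl) <;> assumption⟩⟩
          rcases lt_trichotomy t i with h3 | h3 | h3
          · exact absurd xi (c1 t i h3 hi h)
          · omega
          · exact absurd h (c1 i t h3 ht xi)
        · push Not at c2
          exact ⟨T, T, le_rfl, le_rfl, Or.inl rfl, fun t ht =>
            ⟨fun h => absurd h (c2 t ht), by omega⟩⟩
    refine ⟨ctr R i j fun s => decide (x (i + s) = 1), Finset.mem_filter.2 ⟨Finset.mem_image.2
      ⟨(i, j, _), by simp; omega, rfl⟩, ctr_mem _ (h1.imp id fun h => ⟨h.1, h.2.1, h.2.2.1⟩)⟩,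
      fun t ht => ?_⟩
    rw [close]
    simp only [zero_add]
    unfold ctr
    split_ifs with h3 h4 h5
    · rw [(h2 t ht).2 h3]; decide
    · have e : i + (t - i) = t := by omega
      simp only [e, decide_eq_true_eq] at h5
      rw [h5]; decide
    · have e : i + (t - i) = t := by omega
      simp only [e, decide_eq_true_eq] at h5
      have a1 : x t ≠ 0 := fun h => h3 ((h2 t ht).1 h)
      have a2 : x t ≠ 3 := by
        rcases h1 with h | h
        · omega
        · exact (hx i j h.1 h.2.2.2.1 h.2.2.2.2).2 t h4.1 h4.2.1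
      revert a1 a2 h5
      generalize x t = a
      revert a; decide
    · exact dn_c _ fun h => h3 ((h2 t ht).1 h)

lemma span_le (T R : ℕ) (hR : ∀ m, 4 ^ m < T → 4 ^ m ≤ R) :
    span X0 d0 2 1 T ≤ (T + 1) ^ 2 * 2 ^ R := by
  obtain ⟨S, h1, h2, h3⟩ := upper T R hR
  refine le_trans ?_ h2
  exact Nat.sInf_le ⟨S, h1, rfl, h3⟩

lemma span_ge (m : ℕ) : 2 ^ (4 ^ m - 1) ≤ span X0 d0 2 1 (4 ^ m + 1) := by
  obtain ⟨S0, h1, -, h3⟩ := upper (4 ^ m + 1) (4 ^ m + 1) fun _ h => h.le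
  obtain ⟨S, hS, hc, hcov⟩ := Nat.sInf_mem (s := {n | ∃ S : Finset (ℕ → Fin 4),
    (S : Set (ℕ → Fin 4)) ⊆ X0 ∧ S.card = n ∧ ∀ x ∈ X0, ∃ y ∈ S, ∀ t < 4 ^ m + 1,
      DD d0 2 (fun i => x (i + t)) (fun i => y (i + t)) ≤ 1}) ⟨_, S0, h1, rfl, h3⟩
  unfold span
  rw [← hc]
  have hp : 0 < 4 ^ m := by positivity
  let ex : (Fin (4 ^ m - 1) → Bool) → Fin (4 ^ m) → Bool := fun w s =>
    if h : (s : ℕ) - 1 < 4 ^ m - 1 then w ⟨s - 1, h⟩ else true
  choose f hf1 hf2 using fun w : Fin (4 ^ m - 1) → Bool =>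
    hcov _ (ctr_mem (R := 4 ^ m) (i := 0) (j := 4 ^ m) (ex w) (Or.inr ⟨hp, le_rfl, m, rfl⟩))
  simp only [close, zero_add] at hf2
  have hval : ∀ w (s : Fin (4 ^ m - 1)), f w (s + 1) = if w s then 1 else 2 := by
    intro w s
    have a0 : f w 0 = 0 := dn_hash _ (by simpa [ctr] using hf2 w 0 (by omega))
    have a1 : f w (4 ^ m) = 0 := dn_hash _ (by simpa [ctr] using hf2 w (4 ^ m) (by omega))
    have hs := s.2
    have a2 := (hS (hf1 w) 0 (4 ^ m) hp a0 a1).2 (s + 1) (by omega) (by omega)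
    have a3 := hf2 w (s + 1) (by omega)
    have h8 : ¬ ((s : ℕ) + 1 = 0 ∨ (s : ℕ) + 1 = 4 ^ m) := by omega
    have h9 : 0 < (s : ℕ) + 1 ∧ (s : ℕ) + 1 < 4 ^ m ∧ (s : ℕ) + 1 - 0 < 4 ^ m := by omega
    have a4 : ctr (4 ^ m) 0 (4 ^ m) (ex w) (s + 1) = if w s then 1 else 2 := by
      simp only [ctr, h8, h9, if_false, and_self, dif_pos]
      simp [ex]
    rw [a4] at a3
    exact (dn_ab _ _ (by split_ifs <;> decide) a2 a3).symm
  have := Finset.card_le_card_of_injOn (s := Finset.univ) (t := S) f (fun w _ => hf1 w)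
    (fun w _ w' _ h => funext fun s => by
      have e := (hval w s).symm.trans ((congrFun h _).trans (hval w' s))
      cases hw : w s <;> cases hw' : w' s <;> simp_all)
  simpa using this

lemma pow_bd (n : ℕ) (h : 16 ≤ n) : (4 * n + 1) ^ 2 ≤ 2 ^ n := by
  induction n, h using Nat.le_induction with
  | base => norm_num
  | succ n hn ih => rw [pow_succ 2 n]; nlinarith

theorem result : ∃ (X : Set (ℕ → Fin 4)) (d : Fin 4 → Fin 4 → ℝ) (k : ℕ) (ε : ℝ),
    X.Nonempty ∧ IsClosed X ∧ (∀ x ∈ X, (fun i => x (i + 1)) ∈ X) ∧ IsMetricOn d univ ∧ 1 < k ∧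
    IsMetricOn (DD d k) X ∧ 0 < ε ∧
    liminf (fun T : ℕ => Real.log (span X d k ε T) / T) atTop <
      limsup (fun T : ℕ => Real.log (span X d k ε T) / T) atTop := by
  refine ⟨X0, d0, 2, 1, ⟨fun _ => 3, fun i j _ h => by simp at h⟩, ?_, ?_,
    ⟨fun a _ b _ => ⟨by unfold d0; positivity, ?_, ?_⟩, fun a _ b _ c _ => ?_⟩, by norm_num,
    ⟨fun x _ y _ => ⟨DD_nonneg x y, ?_, ?_⟩, fun x _ y _ z _ => DD_tri x y z⟩, one_pos, ?_⟩
  · have : X0 = ⋂ i, ⋂ j, ⋂ t, (fun x : ℕ → Fin 4 => (x i, x j, x t)) ⁻¹'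
        {q | i < j → q.1 = 0 → q.2.1 = 0 → (∃ m, j - i = 4 ^ m) ∧ (i < t → t < j → q.2.2 ≠ 3)} := by
      ext x
      simp only [X0, mem_setOf_eq, mem_iInter, mem_preimage]
      exact ⟨fun h i j t h1 h2 h3 => ⟨(h i j h1 h2 h3).1, (h i j h1 h2 h3).2 t⟩,
        fun h i j h1 h2 h3 => ⟨(h i j 0 h1 h2 h3).1, fun t => (h i j t h1 h2 h3).2⟩⟩
    rw [this]
    exact isClosed_iInter fun i => isClosed_iInter fun j => isClosed_iInter fun t =>
      (isClosed_discrete _).preimage (by fun_prop)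
  · intro x hx i j hij hi hj
    obtain ⟨h1, h2⟩ := hx (i + 1) (j + 1) (by omega) hi hj
    exact ⟨by rwa [Nat.add_sub_add_right] at h1, fun t a b => h2 (t + 1) (by omega) (by omega)⟩
  · unfold d0; rw [Nat.cast_eq_zero, dn_zero]
  · unfold d0; rw [dn_comm]
  · unfold d0; exact_mod_cast dn_tri a b c
  · constructor
    · intro h
      by_contra hne
      unfold DD d0 at h
      rw [div_eq_zero_iff, Nat.cast_eq_zero, dn_zero] at h
      rcases h with h | h
      · exact PiNat.apply_firstDiff_ne hne h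
      · exact absurd h (by positivity)
    · rintro rfl
      unfold DD d0
      rw [(dn_zero _ _).2 rfl]; simp
  · unfold DD d0
    rw [PiNat.firstDiff_comm x y, dn_comm]
  · have l2 : 0 < Real.log 2 := Real.log_pos (by norm_num)
    have hlog : ∀ (T n : ℕ), span X0 d0 2 1 T ≤ 2 ^ n →
        Real.log (span X0 d0 2 1 T) ≤ n * Real.log 2 := by
      intro T n h
      rcases Nat.eq_zero_or_pos (span X0 d0 2 1 T) with h0 | h0
      · rw [h0]; simp; positivity
      · rw [← Real.log_pow]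
        exact Real.log_le_log (by exact_mod_cast h0) (by exact_mod_cast h)
    have h4 : ∀ m : ℕ, m < 4 ^ m := fun m => Nat.lt_pow_self (by norm_num)
    have b1 : liminf (fun T : ℕ => Real.log (span X0 d0 2 1 T) / T) atTop ≤ Real.log 2 / 2 := by
      refine liminf_le_of_frequently_le (frequently_atTop.2 fun m => ⟨4 ^ (m + 16 + 1),
        by have := h4 (m + 16 + 1); omega, ?_⟩)
        (isBoundedUnder_of ⟨0, fun T => div_nonneg (Real.log_natCast_nonneg _) (by positivity)⟩)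
      have a1 := span_le (4 ^ (m + 16 + 1)) (4 ^ (m + 16)) fun a ha =>
        Nat.pow_le_pow_right (by norm_num)
          (Nat.lt_succ_iff.1 ((Nat.pow_lt_pow_iff_right (by norm_num)).1 ha))
      have a2 := pow_bd (4 ^ (m + 16)) (by have := h4 (m + 16); omega)
      have e : 4 ^ (m + 16 + 1) = 4 * 4 ^ (m + 16) := by ring
      rw [e] at a1 ⊢
      generalize 4 ^ (m + 16) = n at *
      have a3 := hlog _ (2 * n) (a1.trans (by
        rw [two_mul, pow_add]; exact Nat.mul_le_mul_right _ a2))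
      rcases Nat.eq_zero_or_pos n with rfl | hn
      · simp; positivity
      · rw [div_le_iff₀ (by positivity)]
        push_cast at a3 ⊢
        linarith
    have b2 : 3 / 5 * Real.log 2 ≤
        limsup (fun T : ℕ => Real.log (span X0 d0 2 1 T) / T) atTop := by
      refine le_limsup_of_frequently_le (frequently_atTop.2 fun m => ⟨4 ^ (m + 4) + 1,
        by have := h4 (m + 4); omega, ?_⟩) (isBoundedUnder_of ⟨3 * Real.log 2, fun T => ?_⟩)
      · have a1 := span_ge (m + 4)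
        have a2 : 4 ≤ 4 ^ (m + 4) := by have := h4 (m + 4); omega
        generalize 4 ^ (m + 4) = n at *
        have a3 : ((n - 1 : ℕ) : ℝ) * Real.log 2 ≤ Real.log (span X0 d0 2 1 (n + 1)) := by
          rw [← Real.log_pow]
          exact Real.log_le_log (by positivity) (by exact_mod_cast a1)
        rw [le_div_iff₀ (by positivity)]
        rw [Nat.cast_sub (by omega)] at a3
        have a4 : (4 : ℝ) ≤ n := by exact_mod_cast a2
        push_cast at a3 ⊢
        nlinarith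
      · have a1 := span_le T T fun _ h => h.le
        have a2 : (T + 1) ^ 2 ≤ 2 ^ (2 * T) := by
          rw [mul_comm, pow_mul]
          exact Nat.pow_le_pow_left (Nat.lt_pow_self (by norm_num)) 2
        have a3 := hlog T (3 * T) (a1.trans (by
          rw [show 3 * T = 2 * T + T by ring, pow_add]; exact Nat.mul_le_mul_right _ a2))
        rcases Nat.eq_zero_or_pos T with rfl | hn
        · simp; positivity
        · rw [div_le_iff₀ (by positivity)]
          push_cast at a3 ⊢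
          linarith
    linarith

end Pool.Agent.Results.MP_6f7bab_an.SpanFails
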